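import Pool.Agent.H17EF.PNDefs

/-!
# GU Defs: finite étale coverings of projective varieties
-/

set_option autoImplicit false

open Topology Filter MvPolynomial

noncomputable section

namespace Pool.Agent.H23.GU

open Pool.Agent.H17 (PN)
open Pool.Agent.H17EF (projVar)

variable {N M : ℕ}

/-- `p` is a finite étale covering `X' → X` of projective varieties: a surjective regular map which is locally injective and has local holomorphic
sections through every point of `X'`. -/
structure IsEtaleCovering (P : Ideal (MvPolynomial (Fin (N + 1)) ℂ)) (P' : Ideal (MvPolynomial (Fin (M + 1)) ℂ)) (p : PN M → PN N) : Prop where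
  /-- `p` maps `X'` to `X` -/
  maps : ∀ y ∈ projVar P', p y ∈ projVar P
  /-- `p` is surjective -/
  surj : ∀ x ∈ projVar P, ∃ y ∈ projVar P', p y = x
  /-- near every point of `X'` the map `p` is given by forms of the same degree -/
  regular : ∀ y ∈ projVar P', ∃ (D : ℕ) (γ : Fin (N + 1) → MvPolynomial (Fin (M + 1)) ℂ), (∀ i, (γ i).IsHomogeneous D) ∧
    (∃ i, eval y.rep (γ i) ≠ 0) ∧ ∀ y' ∈ projVar P', ∀ h : (fun i => eval y'.rep (γ i)) ≠ 0, p y' = Projectivization.mk ℂ (fun i => eval y'.rep (γ i)) h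
  /-- `p` is locally injective -/
  locInj : ∀ (y : Fin (M + 1) → ℂ) (hy : y ≠ 0), Projectivization.mk ℂ y hy ∈ projVar P' → ∀ᶠ q in 𝓝 (y, y), ∀ (h : q.1 ≠ 0) (h' : q.2 ≠ 0),
    Projectivization.mk ℂ q.1 h ∈ projVar P' → Projectivization.mk ℂ q.2 h' ∈ projVar P' →
      p (Projectivization.mk ℂ q.1 h) = p (Projectivization.mk ℂ q.2 h') → Projectivization.mk ℂ q.1 h = Projectivization.mk ℂ q.2 h'
  /-- local holomorphic sections -/
  locSec : ∀ (y : Fin (M + 1) → ℂ) (hy : y ≠ 0), Projectivization.mk ℂ y hy ∈ projVar P' →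
    ∃ (x : Fin (N + 1) → ℂ) (hx : x ≠ 0) (τ : (Fin (N + 1) → ℂ) → Fin (M + 1) → ℂ), p (Projectivization.mk ℂ y hy) = Projectivization.mk ℂ x hx ∧
      AnalyticAt ℂ τ x ∧ τ x = y ∧ ∀ᶠ x' in 𝓝 x, ∀ h : x' ≠ 0, Projectivization.mk ℂ x' h ∈ projVar P →
        ∃ h' : τ x' ≠ 0, Projectivization.mk ℂ (τ x') h' ∈ projVar P' ∧ p (Projectivization.mk ℂ (τ x') h') = Projectivization.mk ℂ x' h

end Pool.Agent.H23.GU
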