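import Pool.Agent.H7.Qup.An
import Pool.Agent.H7.Qup.Log
import Pool.Agent.H22.TB.OfSheets

/-!
# GU Up: the properties `GGLC` go up along dominant rational maps of projective varieties of the same dimension

`gglc_up`: let `P` and `P'` be homogeneous prime ideals, whose varieties `X` and `X'` have the same dimension, and let the function field of `X` be
embedded in the function field of `X'` (this is a dominant rational map from `X'` to `X`).  If `X` has the properties `GGLC` (with an exceptional set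
`Ξ`), then so has `X'`.
-/

set_option autoImplicit false

open Topology Filter MvPolynomial

noncomputable section

namespace Pool.Agent.H23.GU

open Pool.Agent.H17 (PN VanishesAt HolomorphicInto puncturedDisc vanishesAt_mk_iff ZariskiClosedIn)
open Pool.Agent.H17GT (coordFun)
open Pool.Agent.H17LG.Variety (FunField IsLogGeneralType ratio)
open Pool.Agent.H62.FC (Homog)
open Pool.Agent.H17R (coordFun_ne_zero_iff gen_eq_zero_iff ratio_self adjoin_ratio)
open Pool.Agent.H17EF (projVar)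
open Pool.Agent.H7.Bir (vals rmap vanishesAt_rmap pn_identity punctured_open exists_quot aeval_comp aeval_div rmap_mk vals_smul eval_comp exists_comp)
open Pool.Agent.H7.Qup (const_of_root root_bound exists_eq_aux isLGT_of_algebraic vals_rep_ne)
open Pool.Agent.H22.TB (GGLC eq_of_basis)

variable {N M : ℕ}

/-- An embedding of function fields is given by forms. -/
theorem exists_rat {P : Ideal (MvPolynomial (Fin (N + 1)) ℂ)} [P.IsPrime] {P' : Ideal (MvPolynomial (Fin (M + 1)) ℂ)}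
    [P'.IsPrime] (e : FunField P →ₐ[ℂ] FunField P') {j : Fin (N + 1)} (hj : coordFun P j ≠ 0) {j' : Fin (M + 1)}
    (hj' : coordFun P' j' ≠ 0) :
    ∃ (D : ℕ) (γ : Fin (N + 1) → MvPolynomial (Fin (M + 1)) ℂ), (∀ i, (γ i).IsHomogeneous D) ∧
      (∀ n R, R.IsHomogeneous n → (aeval γ R ∈ P' ↔ R ∈ P)) ∧ γ j ∉ P' := by
  set ξ : Fin (N + 1) → FunField P := fun i => ratio P i j with hξ
  set η : Fin (M + 1) → FunField P' := fun i => ratio P' i j' with hη
  have hξ1 : ξ j = 1 := ratio_self hj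
  have hη1 : η j' = 1 := ratio_self hj'
  obtain ⟨D, γ, hγ, hγ0, hγ1⟩ := exists_quot hη1 (adjoin_ratio hj') (fun i => e (ξ i)) (j' := j) (by simp only [hξ1, map_one])
  have h1 : (fun i => aeval η (γ i) / aeval η (γ j)) = fun i => e (ξ i) := by
    funext i
    rw [← hγ1, mul_div_cancel_right₀ _ hγ0]
  have hsymm : ∀ R : MvPolynomial (Fin (N + 1)) ℂ, aeval (fun i => e (ξ i)) R = e (aeval ξ R) := by
    intro R
    have h2 := DFunLike.congr_fun (MvPolynomial.comp_aeval ξ e) R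
    exact h2.symm
  have h2 : ∀ (n : ℕ) (R : MvPolynomial (Fin (N + 1)) ℂ), R.IsHomogeneous n →
      aeval η (aeval γ R) = aeval η (γ j) ^ n * e (aeval ξ R) := by
    intro n R hR
    rw [aeval_comp, aeval_div hR hγ0, h1, hsymm]
  refine ⟨D, γ, hγ, ?_, ?_⟩
  · intro n R hR
    have h3 : (aeval γ R).IsHomogeneous (D * n) := hR.aeval γ hγ
    rw [← gen_eq_zero_iff hj' h3, ← gen_eq_zero_iff hj hR]
    change aeval η (aeval γ R) = 0 ↔ aeval ξ R = 0
    rw [h2 n R hR, mul_eq_zero, map_eq_zero_iff e e.injective]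
    exact ⟨fun h => h.resolve_left (pow_ne_zero _ hγ0), Or.inr⟩
  · intro h
    exact hγ0 ((gen_eq_zero_iff hj' (hγ j)).2 h)

theorem eval_smul {n : ℕ} {Q : MvPolynomial (Fin (N + 1)) ℂ} (hQ : Q.IsHomogeneous n) (c : ℂ) (x : Fin (N + 1) → ℂ) :
    eval (c • x) Q = c ^ n * eval x Q :=
  Pool.Agent.H17BP.eval_smul_form hQ c x

/-- The equation of the coordinate `i`. -/
def rel {m : ℕ} (α : Fin (m + 1) → MvPolynomial (Fin (N + 1)) ℂ) (i j : Fin (M + 1)) (x : Fin (N + 1) → ℂ) (y : Fin (M + 1) → ℂ) : ℂ :=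
  ∑ l : Fin (m + 1), eval x (α l) * y i ^ (l : ℕ) * y j ^ (m - (l : ℕ))

theorem rel_smul {m D₁ : ℕ} {α : Fin (m + 1) → MvPolynomial (Fin (N + 1)) ℂ} (hα : ∀ l, (α l).IsHomogeneous D₁) (i j : Fin (M + 1))
    (a b : ℂ) (x : Fin (N + 1) → ℂ) (y : Fin (M + 1) → ℂ) : rel α i j (a • x) (b • y) = a ^ D₁ * b ^ m * rel α i j x y := by
  unfold rel
  rw [Finset.mul_sum]
  refine Finset.sum_congr rfl fun l _ => ?_
  have h1 : (l : ℕ) ≤ m := Nat.lt_succ_iff.1 l.2
  have h2 : b ^ m = b ^ (l : ℕ) * b ^ (m - (l : ℕ)) := by rw [← pow_add, Nat.add_sub_cancel' h1]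
  rw [eval_smul (hα l), h2, Pi.smul_apply, Pi.smul_apply, smul_eq_mul, smul_eq_mul, mul_pow, mul_pow]
  ring

theorem rel_vals {m : ℕ} (α : Fin (m + 1) → MvPolynomial (Fin (N + 1)) ℂ) (i j : Fin (M + 1))
    (γ : Fin (N + 1) → MvPolynomial (Fin (M + 1)) ℂ) (y : Fin (M + 1) → ℂ) :
    rel α i j (vals γ y) y = eval y (∑ l : Fin (m + 1), aeval γ (α l) * X i ^ (l : ℕ) * X j ^ (m - (l : ℕ))) := by
  unfold rel
  rw [map_sum]
  refine Finset.sum_congr rfl fun l _ => ?_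
  rw [map_mul, map_mul, map_pow, map_pow, eval_X, eval_X, eval_comp]

theorem rel_continuousAt {m : ℕ} (α : Fin (m + 1) → MvPolynomial (Fin (N + 1)) ℂ) (i j : Fin (M + 1)) {ψ : ℂ → Fin (N + 1) → ℂ}
    {φ : ℂ → Fin (M + 1) → ℂ} {z : ℂ} (hψ : AnalyticAt ℂ ψ z) (hφ : AnalyticAt ℂ φ z) :
    ContinuousAt (fun w => rel α i j (ψ w) (φ w)) z := by
  unfold rel
  have h1 : ∀ Q : MvPolynomial (Fin (N + 1)) ℂ, ContinuousAt (fun w => eval (ψ w) Q) z := by
    intro Q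
    have h1 : AnalyticAt ℂ (fun w => MvPolynomial.aeval (ψ w) Q) z := AnalyticAt.aeval_mvPolynomial (fun i => analyticAt_pi_iff.mp hψ i) Q
    exact h1.continuousAt
  have h2 : ∀ i, ContinuousAt (fun w => φ w i) z := fun i => (continuous_apply i).continuousAt.comp hφ.continuousAt
  have h3 : ContinuousAt (fun w => ∑ l : Fin (m + 1), eval (ψ w) (α l) * φ w i ^ (l : ℕ) * φ w j ^ (m - (l : ℕ))) z := by
    refine tendsto_finsetSum _ fun l _ => ?_
    exact ((h1 _).mul ((h2 i).pow _)).mul ((h2 j).pow _)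
  exact h3

/-- `g` is the composition of `f` with the rational map (in a weak sense): the equations between the coordinates hold. -/
def Rel {m : ℕ} (α : Fin (m + 1) → MvPolynomial (Fin (N + 1)) ℂ) (i j : Fin (M + 1)) (p : PN N) (q : PN M) : Prop :=
  ∀ (y : Fin (M + 1) → ℂ) (hy : y ≠ 0) (x : Fin (N + 1) → ℂ) (hx : x ≠ 0), q = Projectivization.mk ℂ y hy → p = Projectivization.mk ℂ x hx →
    rel α i j x y = 0

theorem Rel_of {m D₁ : ℕ} {α : Fin (m + 1) → MvPolynomial (Fin (N + 1)) ℂ} (hα : ∀ l, (α l).IsHomogeneous D₁) {i j : Fin (M + 1)}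
    {x : Fin (N + 1) → ℂ} (hx : x ≠ 0) {y : Fin (M + 1) → ℂ} (hy : y ≠ 0) (h : rel α i j x y = 0) :
    Rel α i j (Projectivization.mk ℂ x hx) (Projectivization.mk ℂ y hy) := by
  intro y' hy' x' hx' h1 h2
  rw [eq_comm, Projectivization.mk_eq_mk_iff'] at h1 h2
  obtain ⟨b, hb⟩ := h1
  obtain ⟨a, ha⟩ := h2
  rw [← hb, ← ha, rel_smul hα, h, mul_zero]

/-- **The composition with the rational map.** -/
theorem exists_lift {P : Ideal (MvPolynomial (Fin (N + 1)) ℂ)} {P' : Ideal (MvPolynomial (Fin (M + 1)) ℂ)} {D : ℕ}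
    {γ : Fin (N + 1) → MvPolynomial (Fin (M + 1)) ℂ} (hγ : ∀ i, (γ i).IsHomogeneous D)
    (hmaps : ∀ n R, R.IsHomogeneous n → (aeval γ R ∈ P' ↔ R ∈ P)) {f : ℂ → PN M} {U : Set ℂ} (hUo : IsOpen U) (hUc : IsPreconnected U)
    (hf : HolomorphicInto f U) (hfX : ∀ z ∈ U, f z ∈ projVar P') {z₀ : ℂ} (hz₀ : z₀ ∈ U) {i₀ : Fin (N + 1)} (h : ¬ VanishesAt (γ i₀) (f z₀)) :
    ∃ g : ℂ → PN N, HolomorphicInto g U ∧ (∀ z ∈ U, g z ∈ projVar P) ∧ g z₀ = rmap γ (f z₀) ∧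
      ∀ (m D₁ : ℕ) (α : Fin (m + 1) → MvPolynomial (Fin (N + 1)) ℂ) (i j : Fin (M + 1)), (∀ l, (α l).IsHomogeneous D₁) →
        ∑ l : Fin (m + 1), aeval γ (α l) * X i ^ (l : ℕ) * X j ^ (m - (l : ℕ)) ∈ P' → ∀ z ∈ U, Rel α i j (g z) (f z) := by
  obtain ⟨g, hg, hg1, hg2⟩ := exists_comp hγ hUo hUc hf hz₀ h
  -- the values near a point
  have hnear : ∀ z ∈ U, ∀ (φ : ℂ → Fin (M + 1) → ℂ) (ψ : ℂ → Fin (N + 1) → ℂ), AnalyticAt ℂ φ z → AnalyticAt ℂ ψ z →
      (∀ᶠ w in 𝓝 z, ∃ h : φ w ≠ 0, f w = Projectivization.mk ℂ (φ w) h) → (∀ᶠ w in 𝓝 z, ∃ h : ψ w ≠ 0, g w = Projectivization.mk ℂ (ψ w) h) →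
      ∀ᶠ w in 𝓝[≠] z, f w ∈ projVar P' ∧ φ w ≠ 0 ∧ (∃ h : φ w ≠ 0, f w = Projectivization.mk ℂ (φ w) h) ∧ vals γ (f w).rep ≠ 0 ∧ g w = rmap γ (f w) ∧
        ∃ c : ℂ, ψ w = c • vals γ (φ w) := by
    intro z hz φ ψ hφ hψ he he'
    filter_upwards [hg2 z hz, he.filter_mono nhdsWithin_le_nhds, he'.filter_mono nhdsWithin_le_nhds,
      mem_nhdsWithin_of_mem_nhds (hUo.mem_nhds hz)] with w h1 h2 h3 h4
    obtain ⟨h5, h6⟩ := h1
    obtain ⟨h7, h8⟩ := h2
    obtain ⟨h9, h10⟩ := h3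
    have h11 : vals γ (φ w) ≠ 0 := by
      rw [h8] at h5
      exact (vals_rep_ne hγ h7).1 h5
    refine ⟨hfX w h4, h7, ⟨h7, h8⟩, h5, h6, ?_⟩
    have h12 : Projectivization.mk ℂ (ψ w) h9 = Projectivization.mk ℂ (vals γ (φ w)) h11 := by
      rw [← h10, h6, h8, rmap_mk hγ h7 h11]
    rw [Projectivization.mk_eq_mk_iff'] at h12
    obtain ⟨c, hc⟩ := h12
    exact ⟨c, hc.symm⟩
  refine ⟨g, hg, ?_, hg1 z₀ hz₀ fun h0 => h (congrFun h0 i₀), ?_⟩
  · intro z hz R hR n hRn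
    obtain ⟨φ, hφ, he⟩ := hf z hz
    obtain ⟨ψ, hψ, he'⟩ := hg z hz
    obtain ⟨h1, h2⟩ := he'.self_of_nhds
    rw [h2, vanishesAt_mk_iff hRn]
    have hcont : ContinuousAt (fun w => eval (ψ w) R) z := by
      have h1 : AnalyticAt ℂ (fun w => MvPolynomial.aeval (ψ w) R) z := AnalyticAt.aeval_mvPolynomial (fun i => analyticAt_pi_iff.mp hψ i) R
      exact h1.continuousAt
    have h0 : ∀ᶠ w in 𝓝[≠] z, eval (ψ w) R = 0 := by
      filter_upwards [hnear z hz φ ψ hφ hψ he he', he'.filter_mono nhdsWithin_le_nhds] with w h3 h4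
      obtain ⟨h5, h6, h7, h8, h9, h10⟩ := h3
      obtain ⟨h11, h12⟩ := h4
      have h13 : VanishesAt R (g w) := by
        rw [h9, vanishesAt_rmap h8 hRn]
        exact h5 _ ((hmaps n R hRn).2 hR) _ (hRn.aeval γ hγ)
      rwa [h12, vanishesAt_mk_iff hRn] at h13
    exact tendsto_nhds_unique (hcont.tendsto.mono_left nhdsWithin_le_nhds) (tendsto_const_nhds.congr' (h0.mono fun w hw => hw.symm))
  · intro m D₁ α i j hα hmem z hz
    obtain ⟨φ, hφ, he⟩ := hf z hz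
    obtain ⟨ψ, hψ, he'⟩ := hg z hz
    obtain ⟨h1, h2⟩ := he'.self_of_nhds
    obtain ⟨h3, h4⟩ := he.self_of_nhds
    rw [h2, h4]
    refine Rel_of hα h1 h3 ?_
    have hGhom : (∑ l : Fin (m + 1), aeval γ (α l) * X i ^ (l : ℕ) * X j ^ (m - (l : ℕ)) : MvPolynomial (Fin (M + 1)) ℂ).IsHomogeneous
        (D * D₁ + m) := by
      refine IsHomogeneous.sum _ _ _ fun l _ => ?_
      have h1 := ((((hα l).aeval γ hγ).mul ((isHomogeneous_X ℂ i).pow (l : ℕ))).mul ((isHomogeneous_X ℂ j).pow (m - l)))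
      have h2 : D * D₁ + 1 * (l : ℕ) + 1 * (m - l) = D * D₁ + m := by
        have h3 : (l : ℕ) ≤ m := Nat.lt_succ_iff.1 l.2
        omega
      rw [h2] at h1
      exact h1
    have h0 : ∀ᶠ w in 𝓝[≠] z, rel α i j (ψ w) (φ w) = 0 := by
      filter_upwards [hnear z hz φ ψ hφ hψ he he'] with w h5
      obtain ⟨h6, h7, ⟨h8, h9⟩, h10, h11, c, hc⟩ := h5
      have h12 : rel α i j (c • vals γ (φ w)) ((1 : ℂ) • φ w) = 0 := by
        rw [rel_smul hα, rel_vals]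
        have h13 : VanishesAt _ (f w) := h6 _ hmem _ hGhom
        rw [h9, vanishesAt_mk_iff hGhom] at h13
        rw [h13, mul_zero]
      rwa [one_smul, ← hc] at h12
    exact tendsto_nhds_unique ((rel_continuousAt α i j hψ hφ).tendsto.mono_left nhdsWithin_le_nhds)
      (tendsto_const_nhds.congr' (h0.mono fun w hw => hw.symm))

/-- If the image is constant near a point then so is `f`. -/
theorem const_near {j : Fin (M + 1)} {m : Fin (M + 1) → ℕ} {α : ∀ i, Fin (m i + 1) → MvPolynomial (Fin (N + 1)) ℂ}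
    {f : ℂ → PN M} {g : ℂ → PN N} {z₀ : ℂ} (hrel : ∀ i, ∀ᶠ z in 𝓝 z₀, Rel (α i) i j (g z) (f z))
    {φ : ℂ → Fin (M + 1) → ℂ} (hφ : AnalyticAt ℂ φ z₀)
    (he : ∀ᶠ z in 𝓝 z₀, ∃ h : φ z ≠ 0, f z = Projectivization.mk ℂ (φ z) h)
    (hj : φ z₀ j ≠ 0) {x : Fin (N + 1) → ℂ} (hx : x ≠ 0) (hα : ∀ i, eval x (α i (Fin.last (m i))) ≠ 0)
    (hg : ∀ᶠ z in 𝓝 z₀, g z = Projectivization.mk ℂ x hx) : ∀ᶠ z in 𝓝 z₀, f z = f z₀ := by
  have hcj : ContinuousAt (fun z => φ z j) z₀ := (continuous_apply j).continuousAt.comp hφ.continuousAt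
  obtain ⟨r, hr, hball⟩ := Metric.eventually_nhds_iff_ball.1
    ((((he.and (eventually_all.2 hrel)).and hg).and (hcj.eventually_ne hj)).and hφ.eventually_analyticAt)
  have hz₀ : z₀ ∈ Metric.ball z₀ r := Metric.mem_ball_self hr
  have hconst : ∀ i, ∀ z ∈ Metric.ball z₀ r, φ z i / φ z j = φ z₀ i / φ z₀ j := by
    intro i
    refine const_of_root (b := fun l => eval x (α i l)) (hα i) (ρ := fun z => φ z i / φ z j) (fun z hz => ?_) fun z hz => ?_
    · have h1 := (hball z hz).2.continuousAt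
      exact (((continuous_apply i).continuousAt.comp h1).div ((continuous_apply j).continuousAt.comp h1) (hball z hz).1.2).continuousWithinAt
    · obtain ⟨⟨⟨⟨h1, h2⟩, h3⟩, h4⟩, -⟩ := hball z hz
      obtain ⟨h5, h6⟩ := h1
      have h7 := h2 i (φ z) h5 x hx h6 h3
      unfold rel at h7
      have h8 : ∀ l : Fin (m i + 1), eval x (α i l) * φ z i ^ (l : ℕ) * φ z j ^ (m i - (l : ℕ)) =
          φ z j ^ m i * (eval x (α i l) * (φ z i / φ z j) ^ (l : ℕ)) := by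
        intro l
        have h9 : (l : ℕ) ≤ m i := Nat.lt_succ_iff.1 l.2
        have h10 : φ z j ^ m i = φ z j ^ (l : ℕ) * φ z j ^ (m i - (l : ℕ)) := by
          rw [← pow_add, Nat.add_sub_cancel' h9]
        rw [h10, div_pow]
        field_simp
      rw [Finset.sum_congr rfl fun l _ => h8 l, ← Finset.mul_sum, mul_eq_zero] at h7
      exact h7.resolve_left (pow_ne_zero _ h4)
  filter_upwards [Metric.ball_mem_nhds z₀ hr] with z hz
  obtain ⟨⟨⟨⟨⟨h5, h6⟩, h2⟩, h3⟩, h4⟩, -⟩ := hball z hz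
  obtain ⟨⟨⟨⟨⟨h5', h6'⟩, h2'⟩, h3'⟩, h4'⟩, -⟩ := hball z₀ hz₀
  rw [h6, h6', Projectivization.mk_eq_mk_iff']
  refine ⟨φ z j / φ z₀ j, ?_⟩
  funext i
  have h7 := hconst i z hz
  change φ z j / φ z₀ j * φ z₀ i = φ z i
  rw [div_eq_div_iff h4 h4'] at h7
  field_simp
  linear_combination -h7

/-- **Extension over the puncture.** -/
theorem extend_of_alg {j : Fin (M + 1)} {m : Fin (M + 1) → ℕ} {α : ∀ i, Fin (m i + 1) → MvPolynomial (Fin (N + 1)) ℂ}
    {f : ℂ → PN M} {g : ℂ → PN N} (hrel : ∀ i, ∀ z ∈ puncturedDisc, Rel (α i) i j (g z) (f z)) (hf : HolomorphicInto f puncturedDisc)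
    {ψ : ℂ → Fin (N + 1) → ℂ} (hψ : AnalyticAt ℂ ψ 0)
    (hpf : ∀ᶠ z in 𝓝 (0 : ℂ), z ≠ 0 → ∃ h : ψ z ≠ 0, g z = Projectivization.mk ℂ (ψ z) h)
    (hα : ∀ i, ¬ ∀ᶠ z in 𝓝 (0 : ℂ), eval (ψ z) (α i (Fin.last (m i))) = 0) :
    ∃ g : ℂ → PN M, HolomorphicInto g (Metric.ball 0 1) ∧ ∀ z ∈ puncturedDisc, g z = f z := by
  classical
  have han : ∀ Q : MvPolynomial (Fin (N + 1)) ℂ, AnalyticAt ℂ (fun z => eval (ψ z) Q) 0 := by
    intro Q
    have h1 : AnalyticAt ℂ (fun w => MvPolynomial.aeval (ψ w) Q) 0 :=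
      AnalyticAt.aeval_mvPolynomial (fun i => analyticAt_pi_iff.mp hψ i) Q
    exact h1
  set a : Fin (M + 1) → ℂ → ℂ := fun i z => eval (ψ z) (α i (Fin.last (m i))) with ha
  have hane : ∀ i, ∀ᶠ z in 𝓝[≠] (0 : ℂ), a i z ≠ 0 := by
    intro i
    exact (han _).eventually_eq_zero_or_eventually_ne_zero.resolve_left (hα i)
  -- bounds of the coefficients
  have hbd : ∀ i, ∃ C : ℝ, ∀ᶠ z in 𝓝 (0 : ℂ), ∀ l, ‖eval (ψ z) (α i l)‖ ≤ C := by
    intro i
    have h1 : ∀ l, ∃ C : ℝ, ∀ᶠ z in 𝓝 (0 : ℂ), ‖eval (ψ z) (α i l)‖ ≤ C := fun l =>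
      ⟨‖eval (ψ 0) (α i l)‖ + 1, ((han (α i l)).continuousAt.norm.eventually_lt continuousAt_const (lt_add_one _)).mono fun z hz => hz.le⟩
    choose C hC using h1
    refine ⟨∑ l, |C l|, ?_⟩
    filter_upwards [eventually_all.2 hC] with z hz l
    exact ((hz l).trans (le_abs_self _)).trans (Finset.single_le_sum (f := fun l => |C l|) (fun l _ => abs_nonneg _) (Finset.mem_univ l))
  choose C hC using hbd
  have hev : ∀ᶠ z in 𝓝[≠] (0 : ℂ), z ∈ puncturedDisc ∧ (∃ h : ψ z ≠ 0, g z = Projectivization.mk ℂ (ψ z) h) ∧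
      (∀ i l, ‖eval (ψ z) (α i l)‖ ≤ C i) ∧ ∀ i, a i z ≠ 0 := by
    have h1 : ∀ᶠ z in 𝓝[≠] (0 : ℂ), z ∈ puncturedDisc := by
      have h4 : Metric.ball (0 : ℂ) 1 \ {0} ∈ 𝓝[≠] (0 : ℂ) := sdiff_mem_nhdsWithin_compl (Metric.ball_mem_nhds _ one_pos) _
      exact h4
    have h2 : ∀ᶠ z in 𝓝[≠] (0 : ℂ), ∃ h : ψ z ≠ 0, g z = Projectivization.mk ℂ (ψ z) h :=
      eventually_nhdsWithin_iff.2 (hpf.mono fun z hz h => hz h)
    filter_upwards [h1, h2, (eventually_all.2 hC).filter_mono nhdsWithin_le_nhds, eventually_all.2 hane] with z h3 h4 h5 h6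
    exact ⟨h3, h4, h5, h6⟩
  obtain ⟨r, hr, hball⟩ : ∃ r > 0, ∀ z ∈ Metric.ball (0 : ℂ) r \ {0}, z ∈ puncturedDisc ∧
      (∃ h : ψ z ≠ 0, g z = Projectivization.mk ℂ (ψ z) h) ∧ (∀ i l, ‖eval (ψ z) (α i l)‖ ≤ C i) ∧ ∀ i, a i z ≠ 0 := by
    obtain ⟨r, hr, h1⟩ := Metric.eventually_nhds_iff_ball.1 (eventually_nhdsWithin_iff.1 hev)
    exact ⟨r, hr, fun z hz => h1 z hz.1 hz.2⟩
  -- the coordinate `j` does not vanish
  have hj : ∀ z ∈ Metric.ball (0 : ℂ) r \ {0}, (f z).rep j ≠ 0 := by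
    intro z hz h0
    obtain ⟨h1, ⟨h2, h3⟩, -, h5⟩ := hball z hz
    apply (f z).rep_nonzero
    funext i
    have h6 := hrel i z h1 (f z).rep (f z).rep_nonzero (ψ z) h2 (f z).mk_rep.symm h3
    unfold rel at h6
    rw [Fin.sum_univ_castSucc] at h6
    have h7 : ∀ l : Fin (m i), eval (ψ z) (α i l.castSucc) * (f z).rep i ^ ((l.castSucc : Fin (m i + 1)) : ℕ) *
        (f z).rep j ^ (m i - ((l.castSucc : Fin (m i + 1)) : ℕ)) = 0 := by
      intro l
      have h8 : m i - ((l.castSucc : Fin (m i + 1)) : ℕ) ≠ 0 := by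
        have := l.2
        rw [Fin.val_castSucc]
        omega
      rw [h0, zero_pow h8, mul_zero]
    rw [Finset.sum_eq_zero fun l _ => h7 l, zero_add, Fin.val_last, Nat.sub_self, pow_zero, mul_one, mul_eq_zero] at h6
    exact eq_zero_of_pow_eq_zero (h6.resolve_left (h5 i))
  -- the normalized lift
  set S : ℂ → Fin (M + 1) → ℂ := fun w => ((f w).rep j)⁻¹ • (f w).rep with hS
  have hSmk : ∀ (w : ℂ) (x : Fin (M + 1) → ℂ) (hx : x ≠ 0), f w = Projectivization.mk ℂ x hx → S w = (x j)⁻¹ • x := by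
    intro w x hx h
    obtain ⟨a, ha⟩ := Projectivization.exists_smul_eq_mk_rep ℂ x hx
    have h1 : (f w).rep = (a : ℂ) • x := by rw [h]; exact ha.symm
    rw [hS]
    simp only [h1, Pi.smul_apply, smul_eq_mul]
    rw [smul_smul, mul_inv, mul_comm (a : ℂ)⁻¹, mul_assoc, inv_mul_cancel₀ a.ne_zero, mul_one]
  set A : ℂ → ℂ := fun z => ∏ i, a i z with hA
  have hAan : AnalyticAt ℂ A 0 := by
    have h1 : AnalyticAt ℂ (fun z => ∏ i, a i z) 0 := Finset.analyticAt_fun_prod _ fun i _ => han _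
    exact h1
  -- the function is bounded and holomorphic
  obtain ⟨r', hr', hr'r, haball⟩ : ∃ r' > 0, r' ≤ r ∧ ∀ z ∈ Metric.ball (0 : ℂ) r', AnalyticAt ℂ A z := by
    obtain ⟨ρ, hρ, h1⟩ := Metric.eventually_nhds_iff_ball.1 hAan.eventually_analyticAt
    exact ⟨min ρ r, lt_min hρ hr, min_le_right _ _, fun z hz => h1 z (Metric.ball_subset_ball (min_le_left _ _) hz)⟩
  have hsub : ∀ z ∈ Metric.ball (0 : ℂ) r' \ {0}, z ∈ Metric.ball (0 : ℂ) r \ {0} := fun z hz =>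
    ⟨Metric.ball_subset_ball hr'r hz.1, hz.2⟩
  have hd : DifferentiableOn ℂ (fun z => A z • S z) (Metric.ball (0 : ℂ) r' \ {0}) := by
    intro w hw
    obtain ⟨φ, h4, h5⟩ := hf w (hball w (hsub w hw)).1
    have h6 : φ w j ≠ 0 := by
      obtain ⟨h7, h8⟩ := h5.self_of_nhds
      obtain ⟨a, ha⟩ := Projectivization.exists_smul_eq_mk_rep ℂ (φ w) h7
      have h9 : (f w).rep = (a : ℂ) • φ w := by rw [h8]; exact ha.symm
      have h10 := hj w (hsub w hw)
      rw [h9] at h10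
      exact right_ne_zero_of_mul h10
    have h7 : AnalyticAt ℂ (fun z => (φ z j)⁻¹ • φ z) w := by
      have h8 : AnalyticAt ℂ (fun z => φ z j) w := analyticAt_pi_iff.1 h4 j
      exact (h8.inv h6).smul h4
    have h8 : AnalyticAt ℂ (fun z => A z • ((φ z j)⁻¹ • φ z)) w := (haball w hw.1).smul h7
    refine DifferentiableAt.differentiableWithinAt (h8.differentiableAt.congr_of_eventuallyEq ?_)
    filter_upwards [h5] with z hz
    obtain ⟨h8, h9⟩ := hz
    rw [hSmk z _ h8 h9]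
  have hratio : ∀ z ∈ Metric.ball (0 : ℂ) r \ {0}, ∀ i, ‖a i z * S z i‖ ≤ C i * (m i + 1) := by
    intro z hz i
    obtain ⟨h1, ⟨h2, h3⟩, h4, h5⟩ := hball z hz
    have h6 := hrel i z h1 (f z).rep (f z).rep_nonzero (ψ z) h2 (f z).mk_rep.symm h3
    unfold rel at h6
    have hjz := hj z hz
    have h8 : ∀ l : Fin (m i + 1), eval (ψ z) (α i l) * (f z).rep i ^ (l : ℕ) * (f z).rep j ^ (m i - (l : ℕ)) =
        (f z).rep j ^ m i * (eval (ψ z) (α i l) * (S z i) ^ (l : ℕ)) := by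
      intro l
      have h9 : (l : ℕ) ≤ m i := Nat.lt_succ_iff.1 l.2
      have h10 : (f z).rep j ^ m i = (f z).rep j ^ (l : ℕ) * (f z).rep j ^ (m i - (l : ℕ)) := by
        rw [← pow_add, Nat.add_sub_cancel' h9]
      have h11 : S z i = (f z).rep i / (f z).rep j := by
        change ((f z).rep j)⁻¹ * (f z).rep i = _
        rw [div_eq_inv_mul]
      rw [h10, h11, div_pow]
      field_simp
    rw [Finset.sum_congr rfl fun l _ => h8 l, ← Finset.mul_sum, mul_eq_zero] at h6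
    exact root_bound (h4 i) (h6.resolve_left (pow_ne_zero _ hjz))
  have hb : BddAbove (norm ∘ (fun z => A z • S z) '' (Metric.ball (0 : ℂ) r' \ {0})) := by
    refine ⟨∑ i, (C i * (m i + 1)) * ∏ i' ∈ Finset.univ.erase i, C i', ?_⟩
    rintro _ ⟨w, hw, rfl⟩
    have hw' := hsub w hw
    obtain ⟨-, -, h4, -⟩ := hball w hw'
    have hC0 : ∀ i, 0 ≤ C i := fun i => (norm_nonneg _).trans (h4 i 0)
    have hterm : ∀ i, 0 ≤ (C i * (m i + 1)) * ∏ i' ∈ Finset.univ.erase i, C i' := fun i =>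
      mul_nonneg (mul_nonneg (hC0 i) (by positivity)) (Finset.prod_nonneg fun i' _ => hC0 i')
    change ‖A w • S w‖ ≤ _
    rw [pi_norm_le_iff_of_nonneg (Finset.sum_nonneg fun i _ => hterm i)]
    intro i
    refine le_trans ?_ (Finset.single_le_sum (f := fun i => (C i * (m i + 1)) * ∏ i' ∈ Finset.univ.erase i, C i')
      (fun i _ => hterm i) (Finset.mem_univ i))
    change ‖A w * S w i‖ ≤ _
    have h5 : A w * S w i = (a i w * S w i) * ∏ i' ∈ Finset.univ.erase i, a i' w := by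
      rw [hA]
      simp only
      rw [← Finset.mul_prod_erase Finset.univ (fun i => a i w) (Finset.mem_univ i)]
      ring
    rw [h5, norm_mul, norm_prod]
    refine mul_le_mul (hratio w hw' i) (Finset.prod_le_prod (fun i' _ => norm_nonneg _) fun i' _ => h4 i' _)
      (Finset.prod_nonneg fun i' _ => norm_nonneg _) (mul_nonneg (hC0 i) (by positivity))
  have hu := Complex.differentiableOn_update_limUnder_of_bddAbove (Metric.ball_mem_nhds (0 : ℂ) hr') hd hb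
  set S' : ℂ → Fin (M + 1) → ℂ := Function.update (fun z => A z • S z) 0 (limUnder (𝓝[≠] 0) fun z => A z • S z) with hS'
  have hS'a : AnalyticAt ℂ S' 0 := hu.analyticAt (Metric.ball_mem_nhds (0 : ℂ) hr')
  have hS'eq : ∀ w, w ≠ 0 → S' w = A w • S w := fun w hw => Function.update_of_ne hw _ _
  have hAne : ∀ z ∈ Metric.ball (0 : ℂ) r \ {0}, A z ≠ 0 := fun z hz => Finset.prod_ne_zero_iff.2 fun i _ => (hball z hz).2.2.2 i
  have hSj : ∀ z ∈ Metric.ball (0 : ℂ) r \ {0}, S z j = 1 := fun z hz => inv_mul_cancel₀ (hj z hz)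
  have hS'ne : ∀ z ∈ Metric.ball (0 : ℂ) r \ {0}, S' z ≠ 0 := by
    intro z hz h0
    have h1 := congrFun h0 j
    rw [hS'eq z hz.2] at h1
    change A z * S z j = 0 at h1
    rw [hSj z hz, mul_one] at h1
    exact hAne z hz h1
  have hnz : ¬ ∀ᶠ z in 𝓝 (0 : ℂ), S' z = 0 := by
    intro h0
    have h1 : ∀ᶠ z in 𝓝[≠] (0 : ℂ), z ∈ Metric.ball (0 : ℂ) r \ {0} :=
      sdiff_mem_nhdsWithin_compl (Metric.ball_mem_nhds _ hr) _
    obtain ⟨z, h2, h3⟩ := ((h0.filter_mono nhdsWithin_le_nhds).and h1).exists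
    exact hS'ne z h3 h2
  obtain ⟨n, Φ, hΦ, hΦ0, hΦe⟩ := (hS'a.exists_eventuallyEq_pow_smul_nonzero_iff).2 hnz
  refine Pool.Agent.H62.Qe.extend_of_pow hf le_rfl hΦ.continuousAt hΦ0 ?_
  filter_upwards [hΦe, Metric.ball_mem_nhds (0 : ℂ) hr] with z h1 h2 h3
  have h4 : z ∈ Metric.ball (0 : ℂ) r \ {0} := ⟨h2, h3⟩
  have h5 := hS'ne z h4
  have h6 : Φ z ≠ 0 := by
    intro h7
    rw [h7, smul_zero] at h1
    exact h5 h1
  refine ⟨h6, ?_⟩
  rw [pow_one, ← (f z).mk_rep, Projectivization.mk_eq_mk_iff']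
  rw [hS'eq z h3, sub_zero] at h1
  have h7 : A z ≠ 0 := hAne z h4
  have h8 : (f z).rep j ≠ 0 := hj z h4
  refine ⟨(f z).rep j * (A z)⁻¹ * z ^ n, ?_⟩
  rw [mul_smul, ← h1, smul_smul, mul_assoc, inv_mul_cancel₀ h7, mul_one]
  change (f z).rep j • (((f z).rep j)⁻¹ • (f z).rep) = _
  rw [smul_smul, mul_inv_cancel₀ h8, one_smul]

/-- **Dominant rational maps.** -/
theorem gglc_up {P : Ideal (MvPolynomial (Fin (N + 1)) ℂ)} [P.IsPrime] {P' : Ideal (MvPolynomial (Fin (M + 1)) ℂ)} [hPp' : P'.IsPrime]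
    (hP' : Homog P') {k : ℕ} {z : Fin (k + 1) → FunField P} (hz : IsTranscendenceBasis ℂ z) {z' : Fin (k + 1) → FunField P'}
    (hz' : IsTranscendenceBasis ℂ z') (e : FunField P →ₐ[ℂ] FunField P') {Ξ : Set (PN N)} (hΞ : GGLC P Ξ) : ∃ Ξ' : Set (PN M), GGLC P' Ξ' := by
  obtain ⟨i₀, hi₀⟩ := Pool.Agent.H92.GT.Proj.exists_coordFun_ne_zero P z hz
  obtain ⟨j, hj⟩ := Pool.Agent.H92.GT.Proj.exists_coordFun_ne_zero P' z' hz'
  obtain ⟨D, γ, hγ, hmaps, hγ₀⟩ := exists_rat e hi₀ hj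
  have hjP : X j ∉ P' := coordFun_ne_zero_iff.1 hj
  -- a form which vanishes on the exceptional set
  obtain ⟨S, hS, hΞS⟩ := hΞ.closed
  obtain ⟨x₁, hx₁, R, hRS, hRx₁⟩ : ∃ x ∈ projVar P, ∃ R ∈ S, ¬ VanishesAt R x := by
    by_contra hcon
    push Not at hcon
    apply hΞ.proper
    rw [hΞS]
    ext y
    exact ⟨fun hy => hy.1, fun hy => ⟨hy, fun R hR => hcon y hy R hR⟩⟩
  obtain ⟨nR, hnR⟩ := hS R hRS
  have hRP : R ∉ P := fun h1 => hRx₁ (hx₁ R h1 nR hnR)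
  have hRv : ∀ x ∈ Ξ, VanishesAt R x := by
    intro x hx
    rw [hΞS] at hx
    exact hx.2 R hRS
  -- the equations of the coordinates
  choose m D₁ α hα hαP hrel using exists_eq_aux hz hz' hγ hmaps (coordFun_ne_zero_iff.1 hi₀) hjP
  set B : MvPolynomial (Fin (N + 1)) ℂ := R * ∏ i, α i (Fin.last (m i)) with hB
  have hBhom : B.IsHomogeneous (nR + ∑ i, D₁ i) := hnR.mul (IsHomogeneous.prod _ _ _ fun i _ => hα i _)
  have hBP : B ∉ P := by
    intro h1
    rcases Ideal.IsPrime.mem_or_mem inferInstance h1 with h2 | h2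
    · exact hRP h2
    · obtain ⟨i, -, h3⟩ := (Ideal.IsPrime.prod_mem_iff (p := P)).1 h2
      exact hαP i h3
  set T : MvPolynomial (Fin (M + 1)) ℂ := aeval γ B * γ i₀ * X j with hT
  have hThom : T.IsHomogeneous (D * (nR + ∑ i, D₁ i) + D + 1) := ((hBhom.aeval γ hγ).mul (hγ i₀)).mul (isHomogeneous_X ℂ j)
  have hTP : T ∉ P' := by
    intro h1
    rcases Ideal.IsPrime.mem_or_mem inferInstance h1 with h2 | h2
    · rcases Ideal.IsPrime.mem_or_mem inferInstance h2 with h3 | h3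
      · exact hBP ((hmaps _ B hBhom).1 h3)
      · exact hγ₀ h3
    · exact hjP h2
  -- points outside of the exceptional set
  have key : ∀ y : PN M, ¬ VanishesAt T y → y.rep j ≠ 0 ∧ ¬ VanishesAt (γ i₀) y ∧ ¬ VanishesAt R (rmap γ y) ∧
      ∀ i, ¬ VanishesAt (α i (Fin.last (m i))) (rmap γ y) := by
    intro y hTy
    unfold VanishesAt at hTy
    rw [hT, map_mul, map_mul, mul_eq_zero, mul_eq_zero, not_or, not_or, eval_X] at hTy
    obtain ⟨⟨h1, h2⟩, h3⟩ := hTy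
    have h4 : vals γ y.rep ≠ 0 := fun h0 => h2 (congrFun h0 i₀)
    have h5 : ¬ VanishesAt B (rmap γ y) := by
      rw [vanishesAt_rmap h4 hBhom]
      exact h1
    unfold VanishesAt at h5
    rw [hB, map_mul, mul_eq_zero, not_or, map_prod, Finset.prod_eq_zero_iff] at h5
    push Not at h5
    exact ⟨h3, h2, h5.1, fun i => h5.2 i (Finset.mem_univ i)⟩
  -- the exceptional set
  refine ⟨{x | x ∈ projVar P' ∧ VanishesAt T x}, ?_⟩
  have hclosed : ZariskiClosedIn (projVar P') {x | x ∈ projVar P' ∧ VanishesAt T x} := by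
    refine ⟨{T}, fun R hR => ?_, ?_⟩
    · rw [Set.mem_singleton_iff.1 hR]
      exact ⟨_, hThom⟩
    · ext x
      constructor
      · rintro ⟨h1, h2⟩
        refine ⟨h1, fun R hR => ?_⟩
        rw [Set.mem_singleton_iff.1 hR]
        exact h2
      · rintro ⟨h1, h2⟩
        exact ⟨h1, h2 T rfl⟩
  have hgt : IsLogGeneralType (K := FunField P') (k := k + 1) fun _ => False := by
    let _ : Algebra (FunField P) (FunField P') := e.toRingHom.toAlgebra
    have _ : IsScalarTower ℂ (FunField P) (FunField P') := IsScalarTower.of_algebraMap_eq fun c => (e.commutes c).symm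
    have _ : Algebra.IsAlgebraic (FunField P) (FunField P') := by
      have h1 := trdeg_add_eq ℂ (FunField P) (A := FunField P')
      rw [← hz.cardinalMk_eq_trdeg, ← hz'.cardinalMk_eq_trdeg] at h1
      rw [← trdeg_eq_zero_iff]
      have h2 : Cardinal.mk (Fin (k + 1)) < Cardinal.aleph0 := Cardinal.mk_lt_aleph0
      have h3 : Cardinal.mk (Fin (k + 1)) + Algebra.trdeg (FunField P) (FunField P') = Cardinal.mk (Fin (k + 1)) + 0 := by rw [h1, add_zero]
      exact Cardinal.eq_of_add_eq_add_left h3 h2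
    exact isLGT_of_algebraic ⟨z, hz⟩ (fun _ _ _ _ h => h) (hΞ.generalType (k + 1) (by omega) ⟨z, hz⟩)
  have hbrody : ∀ f : ℂ → PN M, HolomorphicInto f Set.univ → (∀ z, f z ∈ projVar P') → (∃ z w, f z ≠ f w) →
      ∀ z, f z ∈ {x | x ∈ projVar P' ∧ VanishesAt T x} := by
    intro f hf hfX hfn z₀
    refine ⟨hfX z₀, ?_⟩
    by_contra hTz
    obtain ⟨h1, h2, h3, h4⟩ := key _ hTz
    obtain ⟨g, hg, hgX, hg0, hgr⟩ := exists_lift hγ hmaps isOpen_univ isPreconnected_univ hf (fun z _ => hfX z) (Set.mem_univ z₀) h2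
    have hconst : ∀ z w, g z = g w := by
      by_contra hcon
      push Not at hcon
      apply h3
      rw [← hg0]
      exact hRv _ (hΞ.brody _ hg (fun z => hgX z (Set.mem_univ z)) hcon z₀)
    obtain ⟨φ, hφ, he⟩ := hf z₀ (Set.mem_univ z₀)
    have hφj : φ z₀ j ≠ 0 := by
      obtain ⟨h7, h8⟩ := he.self_of_nhds
      obtain ⟨a, ha⟩ := Projectivization.exists_smul_eq_mk_rep ℂ (φ z₀) h7
      have h9 : (f z₀).rep = (a : ℂ) • φ z₀ := by rw [h8]; exact ha.symm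
      rw [h9] at h1
      exact right_ne_zero_of_mul h1
    have hnear : ∀ᶠ z in 𝓝 z₀, f z = (fun _ => f z₀) z := by
      refine const_near (j := j) (m := m) (α := α) (g := g) (x := (g z₀).rep) (fun i => Eventually.of_forall fun z => hgr (m i) (D₁ i) (α i) i j (hα i) (hrel i) z (Set.mem_univ z))
        hφ he hφj (g z₀).rep_nonzero (fun i => ?_) (Eventually.of_forall fun z => ?_)
      · have h5 := h4 i
        rw [← hg0] at h5
        exact h5
      · rw [(g z₀).mk_rep]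
        exact hconst z z₀
    have hc : HolomorphicInto (fun _ : ℂ => f z₀) Set.univ := by
      intro z _
      exact ⟨fun _ => (f z₀).rep, analyticAt_const, Eventually.of_forall fun _ => ⟨(f z₀).rep_nonzero, (f z₀).mk_rep.symm⟩⟩
    have h5 := pn_identity isPreconnected_univ hf hc (Set.mem_univ z₀) hnear
    obtain ⟨z, w, hzw⟩ := hfn
    exact hzw ((h5 z (Set.mem_univ z)).trans (h5 w (Set.mem_univ w)).symm)
  refine ⟨hclosed, ?_, ?_, ?_, hbrody, ?_⟩
  · -- proper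
    intro heq
    obtain ⟨y, hy, hyT⟩ := Pool.Agent.H17EF.exists_point hP' ⟨j, hjP⟩ hTP hThom
    rw [← heq] at hy
    exact hyT hy.2
  · intro w _ hw
    obtain ⟨z'', hz''⟩ := hw
    obtain rfl := eq_of_basis hz' hz''
    exact hgt
  · rintro f hf hfX ⟨z₀, hz₀, hfz₀⟩
    have hTz : ¬ VanishesAt T (f z₀) := fun h1 => hfz₀ ⟨hfX z₀ hz₀, h1⟩
    obtain ⟨h1, h2, h3, h4⟩ := key _ hTz
    obtain ⟨g, hg, hgX, hg0, hgr⟩ := exists_lift hγ hmaps punctured_open Pool.Agent.H36.BP.preconnected_puncturedDisc hf hfX hz₀ h2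
    obtain ⟨ĝ, hĝ, hgg⟩ := hΞ.picard _ hg hgX ⟨z₀, hz₀, fun h5 => h3 (by
      rw [← hg0]
      exact hRv _ h5)⟩
    obtain ⟨ψ, hψ, hψg⟩ := hĝ 0 (Metric.mem_ball_self one_pos)
    refine extend_of_alg (j := j) (m := m) (α := α) (g := g) (fun i z hz => hgr (m i) (D₁ i) (α i) i j (hα i) (hrel i) z hz) hf hψ ?_ fun i hi => ?_
    · filter_upwards [hψg, Metric.ball_mem_nhds (0 : ℂ) one_pos] with z h5 h6 h7
      obtain ⟨h8, h9⟩ := h5
      exact ⟨h8, by rw [← h9, hgg z ⟨h6, h7⟩]⟩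
    · apply h4 i
      have h5 := Pool.Agent.H36.BP.vanish_identity (convex_ball (0 : ℂ) 1).isPreconnected hĝ (S := {α i (Fin.last (m i))}) (by
        intro Q hQ
        rw [Set.mem_singleton_iff] at hQ
        subst hQ
        exact ⟨_, hα i _⟩) (Metric.mem_ball_self one_pos) (by
        filter_upwards [hi, hψg] with z h5 h6 Q hQ
        rw [Set.mem_singleton_iff] at hQ
        subst hQ
        obtain ⟨h7, h8⟩ := h6
        rw [h8, vanishesAt_mk_iff (hα i _)]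
        exact h5) z₀ hz₀.1 _ rfl
      rw [hgg z₀ hz₀, hg0] at h5
      exact h5
  · intro Q _ hQ hPQ hsub hzw
    exact Pool.Agent.AD.P.strongly_one hclosed hbrody Q hQ hPQ hsub hzw

end Pool.Agent.H23.GU
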