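import Pool.Agent.H62.Qe.Dom
import Pool.Agent.H62.Qe.Lift
import Pool.Agent.H62.Qe.Ext
import Pool.Agent.H23.GU.Up
import Pool.Agent.H23.GU.Defs

/-!
# GU Down: the properties `GGLC` descend along finite étale coverings of projective varieties; varieties which virtually dominate `X`

`gglc_down`: let `X' → X` be a finite étale covering of projective varieties, `X` of general type.  If `X'` has the properties `GGLC` (with an exceptional set),
then so has `X`.
`gglc_virtual`: let `Y` be a projective variety of general type with a finite étale covering `Y' → Y` such that `Y'` has the dimension of `X` and a dominant rational map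
to `X`.  If `X` has the properties `GGLC` then so has `Y`.
-/

set_option autoImplicit false

open Topology Filter MvPolynomial

noncomputable section

namespace Pool.Agent.H23.GU

open Pool.Agent.H17 (PN VanishesAt HolomorphicInto puncturedDisc vanishesAt_mk_iff ZariskiClosedIn)
open Pool.Agent.H17LG.Variety (FunField IsLogGeneralType)
open Pool.Agent.H62.FC (Homog)
open Pool.Agent.H62.SA (locVar)
open Pool.Agent.H62.Qe (IsReg IsEtaleOver lift_entire lift_punctured extend_of_lift exists_cover dominant)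
open Pool.Agent.H17EF (projVar)
open Pool.Agent.H7.Bir (vals rmap)
open Pool.Agent.H22.TB (GGLC eq_of_basis)

variable {N M L : ℕ}

/-- no boundary -/
def one (N : ℕ) : Fin 1 → MvPolynomial (Fin (N + 1)) ℂ := fun _ => 1

theorem mem_locVar_one {P : Ideal (MvPolynomial (Fin (N + 1)) ℂ)} {x : PN N} : x ∈ locVar P (one N) ↔ x ∈ projVar P := by
  constructor
  · intro h
    exact h.1
  · intro h
    refine ⟨h, 0, fun h1 => ?_⟩
    unfold VanishesAt one at h1
    rw [map_one] at h1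
    exact one_ne_zero h1

variable {P : Ideal (MvPolynomial (Fin (N + 1)) ℂ)} {P' : Ideal (MvPolynomial (Fin (M + 1)) ℂ)} {p : PN M → PN N}

theorem IsEtaleCovering.reg (h : IsEtaleCovering P P' p) : IsReg P P' p := by
  refine ⟨h.maps, h.surj, fun y hy => ?_⟩
  obtain ⟨D, γ, h1, ⟨i, h2⟩, h3⟩ := h.regular y hy
  refine ⟨D, γ, h1, fun h0 => h2 (congrFun h0 i), fun y' hy' hne => ?_⟩
  rw [h3 y' hy' hne]
  unfold Pool.Agent.H7.Bir.rmap
  rw [dif_pos hne]
  rfl

theorem IsEtaleCovering.over (h : IsEtaleCovering P P' p) : IsEtaleOver P P' (one N) (one M) p := by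
  refine ⟨h.reg, fun y hy => ?_, fun y hy hyU => ?_, fun y hy hyU => ?_⟩
  · rw [mem_locVar_one, mem_locVar_one]
    exact ⟨fun _ => hy, fun _ => h.maps y hy⟩
  · rw [mem_locVar_one] at hyU
    exact h.locInj y hy hyU
  · rw [mem_locVar_one] at hyU
    exact h.locSec y hy hyU

/-- The image of a hypersurface lies in a hypersurface. -/
theorem exists_image_form [P.IsPrime] [P'.IsPrime] (hP : Homog P) (hP' : Homog P') (hX : ∃ i, (X i : MvPolynomial (Fin (N + 1)) ℂ) ∉ P) {k : ℕ}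
    (hz : ∃ z : Fin (k + 1) → FunField P, IsTranscendenceBasis ℂ z)
    (hz' : ∃ z' : Fin (k + 1) → FunField P', IsTranscendenceBasis ℂ z') (hp : IsReg P P' p) {n' : ℕ}
    {R' : MvPolynomial (Fin (M + 1)) ℂ} (hR' : R'.IsHomogeneous n') (hRP' : R' ∉ P') :
    ∃ (T : MvPolynomial (Fin (N + 1)) ℂ) (n : ℕ), T.IsHomogeneous n ∧ T ∉ P ∧ ∀ y ∈ projVar P', VanishesAt R' y → VanishesAt T (p y) := by
  classical
  obtain ⟨n, D, γ, hγ, hγne, hrep, hcov⟩ := exists_cover hP' hp
  choose R m hR hRP hRev using fun k => Pool.Agent.H19OL.exists_norm_form hz hz' (hγ k)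
    (dominant hP hP' hX hp (hγ k) (hrep k) (hγne k)) hR' hRP'
  refine ⟨∏ k, R k, ∑ k, m k, MvPolynomial.IsHomogeneous.prod _ _ _ fun k _ => hR k, ?_, ?_⟩
  · intro h
    obtain ⟨k, -, hk⟩ := ((inferInstance : P.IsPrime).prod_mem_iff).1 h
    exact hRP k hk
  · intro y hy hyR
    obtain ⟨k, hk⟩ := hcov y hy
    have h1 : VanishesAt (R k) (p y) := by
      rw [hrep k y hy hk]
      unfold Pool.Agent.H7.Bir.rmap
      rw [dif_pos hk, vanishesAt_mk_iff (hR k)]
      refine hRev k y.rep y.rep_nonzero (fun Q hQ => ?_) hyR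
      rw [← MvPolynomial.sum_homogeneousComponent Q, map_sum]
      exact Finset.sum_eq_zero fun i _ => hy _ (hP' Q hQ i) i (homogeneousComponent_isHomogeneous i Q)
    unfold VanishesAt at h1 ⊢
    rw [map_prod]
    exact Finset.prod_eq_zero (Finset.mem_univ k) h1

/-- **Finite étale coverings.** -/
theorem gglc_down [P.IsPrime] [P'.IsPrime] (hP : Homog P) (hP' : Homog P') {k : ℕ} (hz : ∃ z : Fin (k + 1) → FunField P, IsTranscendenceBasis ℂ z)
    (hz' : ∃ z' : Fin (k + 1) → FunField P', IsTranscendenceBasis ℂ z') (hp : IsEtaleCovering P P' p)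
    (hgt : IsLogGeneralType (K := FunField P) (k := k + 1) fun _ => False) {Ξ' : Set (PN M)} (h : GGLC P' Ξ') : ∃ Ξ : Set (PN N), GGLC P Ξ := by
  have hpo := hp.over
  -- a form which vanishes on the exceptional set
  obtain ⟨S, hS, hΞS⟩ := h.closed
  obtain ⟨y₀, hy₀, R', hR'S, hR'y₀⟩ : ∃ y ∈ projVar P', ∃ R ∈ S, ¬ VanishesAt R y := by
    by_contra hcon
    push Not at hcon
    apply h.proper
    rw [hΞS]
    ext y
    exact ⟨fun hy => hy.1, fun hy => ⟨hy, fun R hR => hcon y hy R hR⟩⟩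
  obtain ⟨n', hn'⟩ := hS R' hR'S
  have hR'P : R' ∉ P' := fun h1 => hR'y₀ (hy₀ R' h1 n' hn')
  have hR'v : ∀ y ∈ Ξ', VanishesAt R' y := by
    intro y hy
    rw [hΞS] at hy
    exact hy.2 R' hR'S
  have hcoord := Pool.Agent.H17EF.exists_coord (hp.maps y₀ hy₀)
  obtain ⟨T, n, hT, hTP, hTv⟩ := exists_image_form hP hP' hcoord hz hz' hp.reg hn' hR'P
  -- the exceptional set
  refine ⟨{x | x ∈ projVar P ∧ VanishesAt T x}, ?_⟩
  have hclosed : ZariskiClosedIn (projVar P) {x | x ∈ projVar P ∧ VanishesAt T x} := by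
    refine ⟨{T}, fun R hR => ?_, ?_⟩
    · rw [Set.mem_singleton_iff.1 hR]
      exact ⟨n, hT⟩
    · ext x
      constructor
      · rintro ⟨h1, h2⟩
        refine ⟨h1, fun R hR => ?_⟩
        rw [Set.mem_singleton_iff.1 hR]
        exact h2
      · rintro ⟨h1, h2⟩
        exact ⟨h1, h2 T rfl⟩
  have hbrody : ∀ f : ℂ → PN N, HolomorphicInto f Set.univ → (∀ z, f z ∈ projVar P) → (∃ z w, f z ≠ f w) →
      ∀ z, f z ∈ {x | x ∈ projVar P ∧ VanishesAt T x} := by
    intro f hf hfX hfn z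
    obtain ⟨g, hg, hgU, hgf⟩ := lift_entire hP' hpo hf fun z => mem_locVar_one.2 (hfX z)
    have hgn : ∃ z w, g z ≠ g w := by
      obtain ⟨a, b, hab⟩ := hfn
      refine ⟨a, b, fun h1 => hab ?_⟩
      rw [← hgf a, ← hgf b, h1]
    refine ⟨hfX z, ?_⟩
    rw [← hgf z]
    exact hTv _ (mem_locVar_one.1 (hgU z)) (hR'v _ (h.brody g hg (fun z => mem_locVar_one.1 (hgU z)) hgn z))
  refine ⟨hclosed, ?_, ?_, ?_, hbrody, ?_⟩
  · intro heq
    obtain ⟨y, hy, hyT⟩ := Pool.Agent.H17EF.exists_point hP hcoord hTP hT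
    rw [← heq] at hy
    exact hyT hy.2
  · rintro w _ ⟨z'', hz''⟩
    obtain ⟨z, hz⟩ := hz
    obtain rfl := eq_of_basis hz hz''
    exact hgt
  · intro f hf hfX hfΞ
    obtain ⟨k, g, hk, hg, hgU, hgf⟩ := lift_punctured hP' hpo hf fun z hz => mem_locVar_one.2 (hfX z hz)
    have hgΞ : ∃ z ∈ puncturedDisc, g z ∉ Ξ' := by
      by_contra hcon
      push Not at hcon
      obtain ⟨w, hw, hwΞ⟩ := hfΞ
      apply hwΞ
      refine ⟨hfX w hw, ?_⟩
      obtain ⟨z, hz⟩ := IsAlgClosed.exists_pow_nat_eq w (by omega : 0 < k)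
      have hzD : z ∈ puncturedDisc := by
        refine ⟨?_, ?_⟩
        · rw [mem_ball_zero_iff]
          by_contra h1
          push Not at h1
          have h2 : 1 ≤ ‖z‖ ^ k := one_le_pow₀ h1
          rw [← norm_pow, hz] at h2
          have h3 : ‖w‖ < 1 := by
            rw [← mem_ball_zero_iff]
            exact hw.1
          linarith
        · rintro rfl
          apply hw.2
          rw [Set.mem_singleton_iff, ← hz, zero_pow (by omega)]
      rw [← hz, ← hgf z hzD]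
      exact hTv _ (mem_locVar_one.1 (hgU z hzD)) (hR'v _ (hcon z hzD))
    obtain ⟨ĝ, hĝ, hgg⟩ := h.picard g hg (fun z hz => mem_locVar_one.1 (hgU z hz)) hgΞ
    exact extend_of_lift hp.reg hf hk (fun z hz => mem_locVar_one.1 (hgU z hz)) hgf hĝ hgg
  · intro Q _ hQ hPQ hsub hzw
    exact Pool.Agent.AD.P.strongly_one hclosed hbrody Q hQ hPQ hsub hzw

/-- **Varieties which virtually dominate `X`.** -/
theorem gglc_virtual {P : Ideal (MvPolynomial (Fin (N + 1)) ℂ)} [P.IsPrime] {k : ℕ} (hz : ∃ z : Fin (k + 1) → FunField P, IsTranscendenceBasis ℂ z)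
    {Ξ : Set (PN N)} (hΞ : GGLC P Ξ)
    {P' : Ideal (MvPolynomial (Fin (M + 1)) ℂ)} [P'.IsPrime] (hP' : Homog P') (hz' : ∃ z : Fin (k + 1) → FunField P', IsTranscendenceBasis ℂ z)
    (e : FunField P →ₐ[ℂ] FunField P') {Q : Ideal (MvPolynomial (Fin (L + 1)) ℂ)} [Q.IsPrime] (hQ : Homog Q)
    (hw : ∃ z : Fin (k + 1) → FunField Q, IsTranscendenceBasis ℂ z) (hgt : IsLogGeneralType (K := FunField Q) (k := k + 1) fun _ => False)
    {p : PN M → PN L} (hp : IsEtaleCovering Q P' p) : ∃ Ξ' : Set (PN L), GGLC Q Ξ' := by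
  obtain ⟨z, hz⟩ := hz
  obtain ⟨z', hz'⟩ := hz'
  obtain ⟨Ξ₁, h₁⟩ := gglc_up hP' hz hz' e hΞ
  exact gglc_down hQ hP' hw ⟨z', hz'⟩ hp hgt h₁

end Pool.Agent.H23.GU
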